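import Mathlib

/-!
# Factorisation in augmentation ideals passes to quotients of groups
-/

set_option autoImplicit false

open scoped Topology

namespace Pool.Agent.Y320.AI

/-- Membership in the augmentation ideal of `ℓ¹(G)`: absolutely summable with sum zero. -/
def InI0 {G : Type} (f : G → ℂ) : Prop :=
  Summable (fun g => ‖f g‖) ∧ ∑' g, f g = 0

/-- The convolution product. -/
noncomputable def convProd {G : Type} [Group G] (b c : G → ℂ) : G → ℂ :=
  fun x => ∑' g, b g * c (g⁻¹ * x)

/-- The augmentation ideal of `ℓ¹(G)` factors: each of its elements is a product of two of its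
elements. -/
def IdealFactors (G : Type) [Group G] : Prop :=
  ∀ a : G → ℂ, InI0 a → ∃ b c : G → ℂ, InI0 b ∧ InI0 c ∧ a = convProd b c

section push

variable {G Q : Type} [Group G] [Group Q] (φ : G →* Q)

open Classical in
/-- Push-forward along a homomorphism. -/
noncomputable def push (f : G → ℂ) (y : Q) : ℂ := ∑' g, if φ g = y then f g else 0

open Classical in
lemma fib {f : G → ℂ} (hf : Summable fun g => ‖f g‖) :
    (Summable fun s : Q × G => if φ s.2 = s.1 then f s.2 else 0) ∧
    (Summable fun s : Q × G => ‖if φ s.2 = s.1 then f s.2 else 0‖) ∧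
    ∑' s : Q × G, (if φ s.2 = s.1 then f s.2 else 0) = ∑' g, f g := by
  have hinj : Function.Injective (fun g : G => (φ g, g)) := fun g h e => (Prod.ext_iff.1 e).2
  have hsupp : ∀ s : Q × G, s ∉ Set.range (fun g : G => (φ g, g)) →
      (if φ s.2 = s.1 then f s.2 else 0) = 0 := by
    intro s hs
    rw [if_neg]
    intro h
    exact hs ⟨s.2, Prod.ext h rfl⟩
  refine ⟨?_, ?_, ?_⟩
  · refine (hinj.summable_iff hsupp).1 ?_
    refine hf.of_norm.congr fun g => ?_
    simp
  · refine (hinj.summable_iff (f := fun s : Q × G => ‖if φ s.2 = s.1 then f s.2 else 0‖)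
      (fun s hs => by rw [hsupp s hs, norm_zero])).1 ?_
    refine hf.congr fun g => ?_
    simp
  · rw [← hinj.tsum_eq]
    · refine tsum_congr fun g => ?_
      simp
    · intro s hs
      by_contra hcon
      exact hs (hsupp s hcon)

lemma tsum_push {f : G → ℂ} (hf : Summable fun g => ‖f g‖) :
    ∑' y, push φ f y = ∑' g, f g := by
  obtain ⟨h1, _, h3⟩ := fib φ hf
  rw [← h3, h1.tsum_prod]
  rfl

open Classical in
lemma norm_push_le {f : G → ℂ} (hf : Summable fun g => ‖f g‖) (y : Q) :
    ‖push φ f y‖ ≤ ∑' g, ‖if φ g = y then f g else 0‖ :=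
  norm_tsum_le_tsum_norm ((fib φ hf).2.1.prod_factor y)

lemma summable_push {f : G → ℂ} (hf : Summable fun g => ‖f g‖) :
    Summable fun y => ‖push φ f y‖ := by
  classical
  obtain ⟨_, h2, _⟩ := fib φ hf
  exact Summable.of_nonneg_of_le (fun _ => norm_nonneg _) (fun y => norm_push_le φ hf y) h2.prod

lemma push_mem {f : G → ℂ} (hf : InI0 f) : InI0 (push φ f) :=
  ⟨summable_push φ hf.1, by rw [tsum_push φ hf.1, hf.2]⟩

lemma push_bound {f : G → ℂ} (hf : Summable fun g => ‖f g‖) (y : Q) :
    ‖push φ f y‖ ≤ ∑' g, ‖f g‖ := by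
  classical
  refine (norm_push_le φ hf y).trans ?_
  refine ((fib φ hf).2.1.prod_factor y).tsum_le_tsum (fun g => ?_) hf
  split_ifs
  · exact le_rfl
  · rw [norm_zero]; exact norm_nonneg _

open Classical in
lemma push_conv {b c : G → ℂ} (hb : Summable fun g => ‖b g‖) (hc : Summable fun g => ‖c g‖) :
    convProd (push φ b) (push φ c) = push φ (convProd b c) := by
  funext x
  -- the common value
  have hG : Summable fun s : G × G => ‖b s.1 * c s.2‖ := by
    refine (hb.mul_of_nonneg hc (fun _ => norm_nonneg _) (fun _ => norm_nonneg _)).congr fun s => ?_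
    rw [norm_mul]
  -- left hand side
  set B : G → ℂ := fun g => b g * push φ c ((φ g)⁻¹ * x) with hB
  have hBs : Summable fun g => ‖B g‖ := by
    refine Summable.of_nonneg_of_le (fun _ => norm_nonneg _) (fun g => ?_)
      (hb.mul_right (∑' g, ‖c g‖))
    rw [hB]
    simp only [norm_mul]
    exact mul_le_mul_of_nonneg_left (push_bound φ hc _) (norm_nonneg _)
  have hL : convProd (push φ b) (push φ c) x = ∑' g, B g := by
    obtain ⟨h1, _, h3⟩ := fib φ hBs
    rw [← h3, h1.tsum_prod]
    unfold convProd
    refine tsum_congr fun y => ?_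
    unfold push
    rw [← tsum_mul_right]
    refine tsum_congr fun g => ?_
    by_cases h : φ g = y
    · rw [if_pos h, if_pos h, hB]
      simp only [h]
      rfl
    · rw [if_neg h, if_neg h, zero_mul]
  have hB2 : ∀ g, B g = ∑' h, (if φ g * φ h = x then b g * c h else 0) := by
    intro g
    rw [hB]
    simp only [push]
    rw [← tsum_mul_left]
    refine tsum_congr fun h => ?_
    by_cases hh : φ g * φ h = x
    · rw [if_pos hh, if_pos (by rw [← hh]; group)]
    · rw [if_neg hh, if_neg (fun h' => hh (by rw [h']; group)), mul_zero]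
  -- right hand side
  have hsh : Summable fun s : G × G => ‖b s.2 * c (s.2⁻¹ * s.1)‖ := by
    let e : G × G ≃ G × G :=
      { toFun := fun s => (s.2, s.2⁻¹ * s.1)
        invFun := fun s => (s.1 * s.2, s.1)
        left_inv := fun s => by simp
        right_inv := fun s => by simp }
    exact (e.summable_iff (f := fun s : G × G => ‖b s.1 * c s.2‖)).2 hG
  have hR1 : Summable fun s : G × G => if φ s.1 = x then b s.2 * c (s.2⁻¹ * s.1) else 0 := by
    refine Summable.of_norm_bounded hsh (fun s => ?_)
    split_ifs
    · exact le_rfl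
    · rw [norm_zero]; exact norm_nonneg _
  have hR : push φ (convProd b c) x = ∑' g, B g := by
    unfold push convProd
    have h1 : ∀ k, (if φ k = x then ∑' g, b g * c (g⁻¹ * k) else 0) =
        ∑' g, (if φ k = x then b g * c (g⁻¹ * k) else 0) := by
      intro k
      split_ifs
      · rfl
      · rw [tsum_zero]
    rw [tsum_congr h1]
    have h2 : ∑' k, ∑' g, (if φ k = x then b g * c (g⁻¹ * k) else 0) =
        ∑' g, ∑' k, (if φ k = x then b g * c (g⁻¹ * k) else 0) :=
      (Summable.tsum_comm (f := fun k g => if φ k = x then b g * c (g⁻¹ * k) else 0) hR1).symm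
    rw [h2]
    refine tsum_congr fun g => ?_
    rw [hB2 g, ← (Equiv.mulLeft g).tsum_eq]
    refine tsum_congr fun h => ?_
    simp only [Equiv.coe_mulLeft, map_mul, inv_mul_cancel_left]
  rw [hL, hR]

open Classical in
/-- **Factorisation of the augmentation ideal passes to quotient groups.** -/
theorem factors_quotient (hφ : Function.Surjective φ) (hG : IdealFactors G) : IdealFactors Q := by
  intro a ha
  obtain ⟨s, hs⟩ := hφ.hasRightInverse
  have hsinj : Function.Injective s := hs.injective
  set a' : G → ℂ := fun g => if g = s (φ g) then a (φ g) else 0 with ha'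
  have hsupp : ∀ g, g ∉ Set.range s → a' g = 0 := by
    intro g hg
    simp only [ha']
    rw [if_neg]
    intro h
    exact hg ⟨φ g, h.symm⟩
  have hval : ∀ y, a' (s y) = a y := by
    intro y
    simp only [ha']
    rw [hs y, if_pos rfl]
  have h1 : Summable fun g => ‖a' g‖ := by
    refine (hsinj.summable_iff (f := fun g => ‖a' g‖)
      (fun g hg => by rw [hsupp g hg, norm_zero])).1 ?_
    refine ha.1.congr fun y => ?_
    simp only [Function.comp_apply, hval]
  have h2 : ∑' g, a' g = 0 := by
    rw [← hsinj.tsum_eq]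
    · simp only [hval]
      exact ha.2
    · intro g hg
      by_contra hcon
      exact hg (hsupp g hcon)
  obtain ⟨b, c, hb, hc, hbc⟩ := hG a' ⟨h1, h2⟩
  refine ⟨push φ b, push φ c, push_mem φ hb, push_mem φ hc, ?_⟩
  rw [push_conv φ hb.1 hc.1, ← hbc]
  funext y
  unfold push
  rw [tsum_eq_single (s y)]
  · rw [if_pos (hs y), hval]
  · intro g hg
    by_cases h : φ g = y
    · rw [if_pos h]
      simp only [ha']
      rw [if_neg]
      rw [h]
      exact hg
    · rw [if_neg h]

end push

end Pool.Agent.Y320.AI
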